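import Pool.Agent.Helper377.DivLimitInst

set_option autoImplicit false

open Finset Filter Topology

namespace Pool.Agent.Results.MP_24d8b2_nt.LimitFormula

/-- no element of `A` divides two other elements of `A` -/
def Admissible (A : Finset ℕ) : Prop :=
  ¬ ∃ a ∈ A, ∃ b ∈ A, ∃ c ∈ A, a ≠ b ∧ a ≠ c ∧ b ≠ c ∧ a ∣ b ∧ a ∣ c

open Classical in
/-- the largest cardinality of an admissible subset of the finite set `X` -/
noncomputable def maxAdm (X : Finset ℕ) : ℕ :=
  (X.powerset.filter (fun A => Admissible A)).sup Finset.card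

/-- `f n` is the largest cardinality of an admissible subset of `[1, n]` -/
noncomputable def f (n : ℕ) : ℕ := maxAdm (Icc 1 n)

open Classical in
/-- `H K j` is the largest cardinality of an admissible set of integers in `[1, j]` all of whose
prime factors are smaller than `K` -/
noncomputable def H (K j : ℕ) : ℕ :=
  maxAdm ((Icc 1 j).filter (fun s => s ∈ Nat.smoothNumbers K))

/-- `∏ (1 - 1/p)` over the primes `p < K` times the sum of `1/s` over all `s ≥ 1` with all prime
factors smaller than `K` for which `H K (s - 1) < H K s` -/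
noncomputable def lamK (K : ℕ) : ℝ :=
  (∏ p ∈ Nat.primesBelow K, (1 - (p : ℝ)⁻¹)) *
    ∑' s : {s : ℕ | s ∈ Nat.smoothNumbers K ∧ H K (s - 1) < H K s}, (1 : ℝ) / (s : ℕ)

theorem result : ∃ c : ℝ, Tendsto (fun n : ℕ => (f n : ℝ) / n) atTop (𝓝 c) ∧
    ∀ K : ℕ, 1 ≤ K → c ≤ lamK K ∧ lamK K ≤ c + 1 / K := by
  obtain ⟨L, h1, h2⟩ := Pool.Agent.Helper377.DivLimit.limit
    (Pool.Agent.Helper377.DivLimit.good_div)
  have hlam : ∀ K, lamK K = Pool.Agent.Helper377.DivLimit.lam (Admissible) K := fun K => rfl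
  refine ⟨L, h1, fun K hK => ?_⟩
  rw [hlam]
  exact h2 K hK

end Pool.Agent.Results.MP_24d8b2_nt.LimitFormula
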